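import Mathlib
import Pool.Agent.H48.Psh10

/-!
# MP_3df006_an: equal supports do not give mutual absolute continuity

For every `n ≥ 1` take `D` the ball of radius `e`, `K` the closed unit ball and the weight
`Q z = (|z|² - 3) / 4`. Then `V_{K,Q}` equals `Q` on `K` and `log |z| - 1/2` off `K`, while
`U_{K,Q,D}` equals `Q` on `K` and `(1/2) log |z| - 1/2` on `D \ K`. The second function is of
class `C¹` across the unit sphere, the first is not: the Monge-Ampere measure of the first one
charges the unit sphere, that of the second one does not, and both have support `K`.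
-/

open MeasureTheory
open Pool.Agent.H48.Psh

theorem Pool.Agent.Results.MP_3df006_an.RadialExample.result (n : ℕ) (hn : 1 ≤ n) :
    IsBddHyperconvex (Metric.ball (0 : Cn n) (Real.exp 1)) ∧
    IsCompact (Metric.closedBall (0 : Cn n) 1) ∧
    Metric.closedBall (0 : Cn n) 1 ⊆ Metric.ball (0 : Cn n) (Real.exp 1) ∧
    IsWeight (Metric.closedBall (0 : Cn n) 1) (fun z => (‖z‖ ^ 2 - 3) / 4) ∧
    ∃ μ ν : Measure (Cn n),
      IsMongeAmpere Set.univ
        (uscReg (extV (Metric.closedBall (0 : Cn n) 1) (fun z => (‖z‖ ^ 2 - 3) / 4))) μ ∧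
      IsMongeAmpere (Metric.ball (0 : Cn n) (Real.exp 1))
        (uscReg (extU (Metric.ball (0 : Cn n) (Real.exp 1)) (Metric.closedBall (0 : Cn n) 1)
          (fun z => (‖z‖ ^ 2 - 3) / 4))) ν ∧
      μ.support = ν.support ∧ ¬ μ ≪ ν := by
  have hsub : Metric.closedBall (0 : Cn n) 1 ⊆ Metric.ball (0 : Cn n) (Real.exp 1) := by
    apply Metric.closedBall_subset_ball
    rw [Real.one_lt_exp_iff]
    exact one_pos
  refine ⟨isBddHyperconvex_ex, isCompact_closedBall _ _, hsub, isWeight_ex, mK n 1, mK n (1 / 2),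
    ?_, ?_, ?_, ?_⟩
  · exact isMongeAmpere_mK hn (by norm_num) (Set.subset_univ _)
      (fun z _ => congrFun uscReg_extV z)
  · exact isMongeAmpere_mK hn le_rfl hsub (fun z hz => uscReg_extU hz)
  · rw [support_mK hn, support_mK hn]
  · intro h
    exact mK_one_sphere hn (h mK_half_sphere)
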